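import Pool.Agent.P.MP_7e3bdd_an.NI.Final

set_option autoImplicit false
open scoped InnerProductSpace

namespace Pool.Agent.Results.MP_7e3bdd_an.AllNonInjective

section Defs

variable {H : Type} [NormedAddCommGroup H] [InnerProductSpace ℂ H] [CompleteSpace H]

/-- Every element of `M` commuting with `N` is a scalar. -/
def TrivialRelComm (N M : VonNeumannAlgebra H) : Prop :=
  ∀ z ∈ M, (∀ y ∈ N, z * y = y * z) → ∃ c : ℂ, z = c • (1 : H →L[ℂ] H)

/-- `M` is the range of a contractive projection from all bounded operators. -/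
def IsInjective (M : VonNeumannAlgebra H) : Prop :=
  ∃ E : (H →L[ℂ] H) →L[ℂ] (H →L[ℂ] H), ‖E‖ ≤ 1 ∧ (∀ T, E T ∈ M) ∧ ∀ T ∈ M, E T = T

/-- `y` lies in the weak operator closure of the convex hull of the `N`-unitary orbit of `x`. -/
def InWeakHull (N : VonNeumannAlgebra H) (x y : H →L[ℂ] H) : Prop :=
  ∀ (n : ℕ) (ξ η : Fin n → H) (ε : ℝ), 0 < ε →
    ∃ T ∈ convexHull ℝ
        {T : H →L[ℂ] H | ∃ u ∈ unitary (H →L[ℂ] H), u ∈ N ∧ T = u * x * star u},
      ∀ i : Fin n, ‖⟪η i, (T - y) (ξ i)⟫_ℂ‖ < ε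

/-- `N ⊆ M` is an irreducible inclusion of factors. -/
def IrreducibleInclusion (N M : VonNeumannAlgebra H) : Prop :=
  (∀ y ∈ N, y ∈ M) ∧ TrivialRelComm M M ∧ TrivialRelComm N N ∧ TrivialRelComm N M

/-- Some self-adjoint contraction of `M` has its whole weak hull over `N` at distance at least `d`
from the scalars. -/
def HullFar (N M : VonNeumannAlgebra H) (d : ℝ) : Prop :=
  ∃ x ∈ M, IsSelfAdjoint x ∧ ‖x‖ ≤ 1 ∧ ∀ y : H →L[ℂ] H, InWeakHull N x y →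
    ∀ c : ℂ, d ≤ ‖y - c • (1 : H →L[ℂ] H)‖

/-- `θ` is additive, multiplicative, complex homogeneous and star preserving on `N`. -/
def StarHomOn {K : Type} [NormedAddCommGroup K] [InnerProductSpace ℂ K] [CompleteSpace K]
    (N : VonNeumannAlgebra H) (θ : (H →L[ℂ] H) → K →L[ℂ] K) : Prop :=
  ∀ a ∈ N, θ (star a) = star (θ a) ∧ (∀ c : ℂ, θ (c • a) = c • θ a) ∧
    ∀ b ∈ N, θ (a + b) = θ a + θ b ∧ θ (a * b) = θ a * θ b

/-- `N` and `N₁` are star isomorphic. -/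
def StarIsomorphic {K : Type} [NormedAddCommGroup K] [InnerProductSpace ℂ K] [CompleteSpace K]
    (N : VonNeumannAlgebra H) (N₁ : VonNeumannAlgebra K) : Prop :=
  ∃ θ : (H →L[ℂ] H) → K →L[ℂ] K, StarHomOn N θ ∧ Set.BijOn θ N N₁

theorem starIsomorphic_of {K : Type} [NormedAddCommGroup K] [InnerProductSpace ℂ K]
    [CompleteSpace K] {N : VonNeumannAlgebra H} {N₁ : VonNeumannAlgebra K}
    (e : N.toStarSubalgebra ≃⋆ₐ[ℂ] N₁.toStarSubalgebra) : StarIsomorphic N N₁ := by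
  classical
  let θ : (H →L[ℂ] H) → K →L[ℂ] K := fun a => if h : a ∈ N then (e ⟨a, h⟩).1 else 0
  have h0 : ∀ a : N.toStarSubalgebra, θ a.1 = (e a).1 := fun a => dif_pos a.2
  refine ⟨θ, fun a ha => ⟨?_, fun c => ?_, fun b hb => ⟨?_, ?_⟩⟩, fun a ha => ?_,
    fun a ha b hb h => ?_, fun y hy => ?_⟩
  · rw [h0 ⟨a, ha⟩]
    exact (h0 (star ⟨a, ha⟩)).trans (congrArg Subtype.val (map_star e _))
  · rw [h0 ⟨a, ha⟩]
    exact (h0 (c • ⟨a, ha⟩)).trans (congrArg Subtype.val (map_smul e _ _))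
  · rw [h0 ⟨a, ha⟩, h0 ⟨b, hb⟩]
    exact (h0 (⟨a, ha⟩ + ⟨b, hb⟩)).trans (congrArg Subtype.val (map_add e _ _))
  · rw [h0 ⟨a, ha⟩, h0 ⟨b, hb⟩]
    exact (h0 (⟨a, ha⟩ * ⟨b, hb⟩)).trans (congrArg Subtype.val (map_mul e _ _))
  · rw [h0 ⟨a, ha⟩]
    exact (e ⟨a, ha⟩).2
  · rw [h0 ⟨a, ha⟩, h0 ⟨b, hb⟩] at h
    exact congrArg Subtype.val (e.injective (Subtype.ext h))
  · refine ⟨(e.symm ⟨y, hy⟩).1, (e.symm ⟨y, hy⟩).2, ?_⟩
    rw [h0, e.apply_symm_apply]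

theorem far_of_orbit {N : VonNeumannAlgebra H} {x y : H →L[ℂ] H} {η ζ : H} {κ : ℝ} (hη : ‖η‖ ≤ 1)
    (hζ : ‖ζ‖ ≤ 1) (hηζ : ⟪η, ζ⟫_ℂ = 0)
    (hx : ∀ u ∈ unitary (H →L[ℂ] H), u ∈ N → κ ≤ (⟪η, (u * x * star u) ζ⟫_ℂ).re)
    (hy : InWeakHull N x y) (c : ℂ) : κ ≤ ‖y - c • (1 : H →L[ℂ] H)‖ := by
  have h1 : κ ≤ (⟪η, y ζ⟫_ℂ).re := by
    refine le_of_forall_pos_le_add fun θ hθ => ?_
    obtain ⟨T, hT, hT'⟩ := hy 1 (fun _ => ζ) (fun _ => η) θ hθ
    have h2 : κ ≤ (⟪η, T ζ⟫_ℂ).re := by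
      refine convexHull_min (t := {T | κ ≤ (⟪η, T ζ⟫_ℂ).re}) ?_ ?_ hT
      · rintro _ ⟨u, hu, huN, rfl⟩
        exact hx u hu huN
      · intro T₁ h₁ T₂ h₂ a b ha hb hab
        simp only [Set.mem_ofPred_eq] at h₁ h₂ ⊢
        have h3 : (a • T₁ + b • T₂) ζ = (a : ℂ) • T₁ ζ + (b : ℂ) • T₂ ζ := by
          simp
        rw [h3, inner_add_right, inner_smul_right, inner_smul_right, Complex.add_re,
          Complex.re_ofReal_mul, Complex.re_ofReal_mul]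
        have h4 : κ = a * κ + b * κ := by rw [← add_mul, hab, one_mul]
        linarith [mul_le_mul_of_nonneg_left h₁ ha, mul_le_mul_of_nonneg_left h₂ hb]
    have h3 := (Complex.re_le_norm _).trans (hT' 0).le
    rw [sub_apply, inner_sub_right, Complex.sub_re] at h3
    linarith
  have h3 : ⟪η, y ζ⟫_ℂ = ⟪η, (y - c • (1 : H →L[ℂ] H)) ζ⟫_ℂ := by
    simp [hηζ]
  rw [h3] at h1
  refine h1.trans ((Complex.re_le_norm _).trans ((norm_inner_le_norm _ _).trans ?_))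
  refine (mul_le_of_le_one_left (norm_nonneg _) hη).trans
    ((ContinuousLinearMap.le_opNorm _ _).trans ?_)
  exact mul_le_of_le_one_right (norm_nonneg _) hζ

end Defs

open Pool.Agent.P.MP_7e3bdd_an in
/-- Every non-injective factor `N` on a separable Hilbert space is star isomorphic to a factor `N₁`
which has an irreducible injective extension `M` containing a self-adjoint contraction whose weak
convex hull of `N₁`-unitary conjugates stays at distance at least `1 - ε` from the scalars. -/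
theorem result (H : Type) [NormedAddCommGroup H] [InnerProductSpace ℂ H] [CompleteSpace H]
    [TopologicalSpace.SeparableSpace H] (N : VonNeumannAlgebra H) (hN : TrivialRelComm N N)
    (hI : ¬ IsInjective N) (ε : ℝ) (hε : 0 < ε) :
    ∃ (K : Type) (_ : NormedAddCommGroup K) (_ : InnerProductSpace ℂ K) (_ : CompleteSpace K)
      (_ : TopologicalSpace.SeparableSpace K) (N₁ M : VonNeumannAlgebra K),
      StarIsomorphic N N₁ ∧ IrreducibleInclusion N₁ M ∧ IsInjective M ∧ HullFar N₁ M (1 - ε) := by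
  obtain ⟨K, i1, i2, i3, i4, N₁, M, h1, hle, hir, h2, η, ζ, hη, hζ, hηζ, x, hx, hx1, hx2, hx3⟩ :=
    NI.main NI.gapAll' NI.std1' NI.std2' NI.sepSt' N hN hI hε
  exact ⟨K, i1, i2, i3, i4, N₁, M, starIsomorphic_of h1.some,
    ⟨hle, fun z hz hc => hir z hz fun y hy => hc y (hle y hy), fun z hz hc => hir z (hle z hz) hc, hir⟩, h2, x, hx, hx1, hx2,
    fun y hy a => far_of_orbit hη hζ hηζ hx3 hy a⟩

end Pool.Agent.Results.MP_7e3bdd_an.AllNonInjective
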