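import Pool.Agent.P.MP_7e3bdd_an.Dx.Main
import Pool.Agent.P.MP_7e3bdd_an.Dx.Ord

set_option autoImplicit false
open scoped InnerProductSpace

namespace Pool.Agent.Results.MP_7e3bdd_an.Dominated

open Pool.Agent.P.MP_7e3bdd_an

section Defs

variable {H : Type} [NormedAddCommGroup H] [InnerProductSpace ℂ H] [CompleteSpace H]

/-- `y` lies in the weak operator closure of the convex hull of the conjugates of `x` by `G`. -/
def InWeakHull (G : Subgroup (unitary (H →L[ℂ] H))) (x y : H →L[ℂ] H) : Prop :=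
  ∀ (n : ℕ) (ξ η : Fin n → H) (ε : ℝ), 0 < ε →
    ∃ T ∈ convexHull ℝ {T : H →L[ℂ] H | ∃ u ∈ G, T = u.1 * x * star u.1},
      ∀ i : Fin n, ‖⟪η i, (T - y) (ξ i)⟫_ℂ‖ < ε

/-- `Q` is a factor, and `G` contains the unitary group of `Q` and normalises `Q`. -/
def NormalisesFactor (G : Subgroup (unitary (H →L[ℂ] H))) (Q : VonNeumannAlgebra H) : Prop :=
  (∀ z ∈ Q, (∀ y ∈ Q, z * y = y * z) → ∃ c : ℂ, z = c • (1 : H →L[ℂ] H)) ∧
    (∀ u : unitary (H →L[ℂ] H), u.1 ∈ Q → u ∈ G) ∧ ∀ u ∈ G, ∀ a ∈ Q, u.1 * a * star u.1 ∈ Q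

/-- `G` lies in `M`, and the elements of `M` commuting with `G` are scalars. -/
def ErgodicIn (G : Subgroup (unitary (H →L[ℂ] H))) (M : VonNeumannAlgebra H) : Prop :=
  (∀ u ∈ G, u.1 ∈ M) ∧
    ∀ z ∈ M, (∀ u ∈ G, z * u.1 = u.1 * z) → ∃ c : ℂ, z = c • (1 : H →L[ℂ] H)

/-- On `M`, the map `E` preserves suprema of bounded increasing families of positive elements. -/
def IsNormalOn (M : VonNeumannAlgebra H) (E : (H →L[ℂ] H) →ₗ[ℂ] (H →L[ℂ] H)) : Prop :=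
  ∀ (D : Set (H →L[ℂ] H)) (x : H →L[ℂ] H), D.Nonempty → DirectedOn (· ≤ ·) D →
    (∀ y ∈ D, y ∈ M ∧ 0 ≤ y) → x ∈ M → IsLUB D x → IsLUB (E '' D) (E x)

/-- On `M`, the map `E` is unital, positive and commutes with conjugation by `G`. -/
def IsEquivariant (G : Subgroup (unitary (H →L[ℂ] H))) (M : VonNeumannAlgebra H)
    (E : (H →L[ℂ] H) →ₗ[ℂ] (H →L[ℂ] H)) : Prop :=
  E 1 = 1 ∧ (∀ x ∈ M, 0 ≤ x → 0 ≤ E x) ∧
    ∀ u ∈ G, ∀ x ∈ M, E (u.1 * x * star u.1) = u.1 * E x * star u.1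

/-- Some weak average of `a` over `G` dominates a nonzero positive element of `Q`. -/
def Dominates (G : Subgroup (unitary (H →L[ℂ] H))) (Q : VonNeumannAlgebra H)
    (a : H →L[ℂ] H) : Prop :=
  ∃ w, InWeakHull G a w ∧ ∃ b ∈ Q, 0 ≤ b ∧ b ≠ 0 ∧ b ≤ w

end Defs

/-- Let `G` be a group of unitaries of `M` with trivial relative commutant, containing the unitary
group of a factor `Q` and normalising it. If a normal unital positive `G`-equivariant map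
`E : M → B(H)` has nonzero positive values that can be averaged above nonzero positive elements of
`Q`, then every element of `M` can be averaged weakly to a scalar by `G`. -/
theorem result (H : Type) [NormedAddCommGroup H] [InnerProductSpace ℂ H] [CompleteSpace H]
    [TopologicalSpace.SeparableSpace H] (Q M : VonNeumannAlgebra H)
    (G : Subgroup (unitary (H →L[ℂ] H))) (hQ : NormalisesFactor G Q) (hM : ErgodicIn G M)
    (E : (H →L[ℂ] H) →ₗ[ℂ] (H →L[ℂ] H)) (hE : IsEquivariant G M E) (hn : IsNormalOn M E)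
    (hdom : ∀ y ∈ M, 0 ≤ y → E y ≠ 0 → Dominates G Q (E y)) :
    ∀ x ∈ M, ∃ c : ℂ, InWeakHull G x (c • (1 : H →L[ℂ] H)) := by
  let G' : Set (H →L[ℂ] H) := {v | ∃ u ∈ G, u.1 = v}
  have hiff : ∀ x y : H →L[ℂ] H, InWeakHull G x y ↔ Dx.Hull G' x y := fun x y => by
    have : {T : H →L[ℂ] H | ∃ u ∈ G, T = u.1 * x * star u.1} =
        {T : H →L[ℂ] H | ∃ u ∈ G', T = u * x * star u} := by
      ext T
      constructor
      · rintro ⟨u, h1, h2⟩
        exact ⟨u.1, ⟨u, h1, rfl⟩, h2⟩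
      · rintro ⟨_, ⟨u, h1, rfl⟩, h2⟩
        exact ⟨u, h1, h2⟩
    rw [InWeakHull, this]
    rfl
  have hG : Dx.Grp Q G' :=
    { unit := by rintro _ ⟨u, -, rfl⟩; exact u.2
      mul := by rintro _ ⟨u, hu, rfl⟩ _ ⟨v, hv, rfl⟩; exact ⟨u * v, mul_mem hu hv, rfl⟩
      star := by rintro _ ⟨u, hu, rfl⟩; exact ⟨u⁻¹, inv_mem hu, rfl⟩
      sub := fun u hu => ⟨⟨u, hu.1⟩, hQ.2.1 _ hu.2, rfl⟩
      norm := by rintro _ ⟨u, hu, rfl⟩; exact hQ.2.2 u hu }
  obtain ⟨Φ, hΦ, h⟩ := Dx.main_weak (M := M) hG (by rintro _ ⟨u, hu, rfl⟩; exact hM.1 u hu) hQ.1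
    (fun z hz h => hM.2 z hz (fun u hu => by
      conv_lhs => rw [← h u.1 ⟨u, hu, rfl⟩]
      rw [mul_assoc, (Unitary.mem_iff.1 u.2).1, mul_one]))
    (Dx.normalW_of_order hE.2.1 hn) hE.1 hE.2.1
    (by rintro _ ⟨u, hu, rfl⟩; exact hE.2.2 u hu) (fun y hy h0 hne => by
      obtain ⟨w, hw, hb⟩ := hdom y hy h0 hne
      exact ⟨w, (hiff _ _).1 hw, hb⟩)
  intro x hx
  obtain ⟨c, hc⟩ := h x hx
  exact ⟨c, (hiff _ _).2 (hc ▸ Dx.hull_of_mem hΦ x)⟩

end Pool.Agent.Results.MP_7e3bdd_an.Dominated
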