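import Pool.Agent.P.MP_7e3bdd_an.WTrans

/-! For a countable group `G` and a subgroup `H`, a characterisation of the weak relative Dixmier
property of the group von Neumann algebra of `G` inside the basic construction over `H`. -/

set_option autoImplicit false

namespace Pool.Agent.Results.MP_7e3bdd_an.GroupCriterion

open Pool.Agent.P.MP_7e3bdd_an.W

theorem result (G : Type) [Group G] [Countable G] (H : Subgroup G)
    (E : Type) [NormedAddCommGroup E] [InnerProductSpace ℂ E] [CompleteSpace E]
    (b : HilbertBasis G ℂ E) :
    List.TFAE [WeakDixmier (B.groupAlg b) (B.basicAlg b H),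
      AveragesToScalars (B.rightTr b) (B.basicAlg b H),
      Liouville H ∧ Escapes H] := by
  classical
  rw [wd_iff, averages_iff]
  tfae_have 1 → 3 := fun h =>
    ⟨liouville_of_lp (lp_of_lk (lk_of_wd h)), escapes_of_wd h⟩
  tfae_have 3 → 2 := fun h => averages_of_lp (lp_of_lk (lk_of_liouville h.1)) h.2
  tfae_have 2 → 1 := wd_of_averages
  tfae_finish

end Pool.Agent.Results.MP_7e3bdd_an.GroupCriterion
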