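import Pool.Agent.P.MP_7e3bdd_an.Far
import Pool.Agent.P.MP_7e3bdd_an.Act

set_option autoImplicit false
open scoped InnerProductSpace

namespace Pool.Agent.Results.MP_7e3bdd_an.NonNormalExpectation

open Pool.Agent.P.MP_7e3bdd_an

section Defs

variable {H : Type} [NormedAddCommGroup H] [InnerProductSpace ℂ H] [CompleteSpace H]

/-- Every element of `M` commuting with `N` is a scalar. -/
def TrivialRelComm (N M : VonNeumannAlgebra H) : Prop :=
  ∀ z ∈ M, (∀ y ∈ N, z * y = y * z) → ∃ c : ℂ, z = c • (1 : H →L[ℂ] H)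

/-- `N` has a separating unit trace vector. -/
def HasTraceVector (N : VonNeumannAlgebra H) : Prop :=
  ∃ Ω : H, ‖Ω‖ = 1 ∧ (∀ a ∈ N, ∀ b ∈ N, ⟪Ω, (a * b) Ω⟫_ℂ = ⟪Ω, (b * a) Ω⟫_ℂ) ∧
    ∀ a ∈ N, a Ω = 0 → a = 0

/-- `E` restricts to a conditional expectation of `M` onto `N` (normality is not required). -/
def IsExpectation (N M : VonNeumannAlgebra H) (E : (H →L[ℂ] H) →ₗ[ℂ] (H →L[ℂ] H)) : Prop :=
  (∀ x ∈ M, E x ∈ N) ∧ (∀ a ∈ N, E a = a) ∧
    (∀ a ∈ N, ∀ b ∈ N, ∀ x ∈ M, E (a * x * b) = a * E x * b) ∧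
    (∀ x ∈ M, x.IsPositive → (E x).IsPositive) ∧ (∀ x ∈ M, ‖E x‖ ≤ ‖x‖)

/-- `y` lies in the weak operator closure of the convex hull of the `N`-unitary orbit of `x`. -/
def InWeakHull (N : VonNeumannAlgebra H) (x y : H →L[ℂ] H) : Prop :=
  ∀ (n : ℕ) (ξ η : Fin n → H) (ε : ℝ), 0 < ε →
    ∃ T ∈ convexHull ℝ
        {T : H →L[ℂ] H | ∃ u ∈ unitary (H →L[ℂ] H), u ∈ N ∧ T = u * x * star u},
      ∀ i : Fin n, ‖⟪η i, (T - y) (ξ i)⟫_ℂ‖ < ε

end Defs

/-- An irreducible inclusion of factors `N ⊆ M` on a separable Hilbert space, with `N` tracial and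
with a conditional expectation of `M` onto `N` (not normal), and a projection `p` in `M` such that
the whole weak closure of the convex hull of the `N`-unitary orbit of `p` lies at distance at least
one half from the scalars. -/
theorem result :
    ∃ (H : Type) (_ : NormedAddCommGroup H) (_ : InnerProductSpace ℂ H) (_ : CompleteSpace H)
      (_ : TopologicalSpace.SeparableSpace H) (N M : VonNeumannAlgebra H),
      (∀ a ∈ N, a ∈ M) ∧ TrivialRelComm M M ∧ TrivialRelComm N N ∧ TrivialRelComm N M ∧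
      HasTraceVector N ∧ (∃ E, IsExpectation N M E) ∧
      ∃ p ∈ M, IsStarProjection p ∧ ∀ y : H →L[ℂ] H, InWeakHull N p y →
        ∀ c : ℂ, 1 / 2 ≤ ‖y - c • (1 : H →L[ℂ] H)‖ := by
  classical
  have hirr := irreducible stab stab_conj_infinite
  have hle := alg_univ_le stab
  obtain ⟨E, h1, h2, h3, h4, h5⟩ := exists_expectation stab (FreeGroup.of 0)
    {s | ∃ n : ℕ, n ≠ 0 ∧ s = FreeGroup.of n} closure_gens (by
      rintro _ ⟨n, hn, rfl⟩ m
      exact conj_gen_mem n hn m)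
  refine ⟨L2 FG, inferInstance, inferInstance, inferInstance, inferInstance, alg Set.univ,
    alg stab, hle, fun z hz hc => hirr z hz (fun y hy => hc y (hle y hy)),
    fun z hz hc => hirr z (hle z hz) hc, hirr,
    ⟨delta 1, norm_delta 1, fun a ha b hb => trace_comm a b ha hb, separating⟩,
    ⟨E, h1, h2, fun a ha b hb x _ => h3 a ha b hb x, fun x _ => h4 x, fun x _ => h5 x⟩,
    mul mult2 abs_mult2_le, mul_mem_alg stab mult2 abs_mult2_le mult2_inv,
    mul_isStarProjection mult2 abs_mult2_le mult2_sq, fun y hy c => ?_⟩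
  exact far_from_scalars mult2 abs_mult2_le (FreeGroup.of 1) (FreeGroup.of 2) mult2_alpha
    mult2_beta y hy c

end Pool.Agent.Results.MP_7e3bdd_an.NonNormalExpectation
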